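import Pool.Agent.Y448.HC.Aug

/-!
# Type `FP_2` implies that the relation module is finitely generated (M1)
-/

set_option autoImplicit false

namespace Pool.Agent.Y448.HC

open Pool.Agent.W326.DU Pool.Agent.Y66.HC Pool.Agent.Helper158 CategoryTheory

section

variable {G ι : Type} [Group G] [Fintype ι]

/-- the augmentation as a morphism -/
noncomputable def ea (G : Type) [Group G] : FMk ℤ (G := G) (ZG G) ⟶ Rep.trivial ℤ G ℤ :=
  mkHom (k := ℤ) (G := G) (augm G).toIntLinearMap (by
    intro g x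
    change augm G (MonoidAlgebra.of ℤ G g * x) = augm G x
    rw [augm_mul, augm_of, one_mul])

theorem ea_apply (x : ZG G) : (ea G).hom x = augm G x := rfl

instance : Epi (ea G) := by
  rw [Rep.epi_iff_surjective]
  exact augm_surj

theorem df_ea (x : ι → G) : lhom (fox x) ≫ ea G = 0 := by
  ext c
  exact augm_fox x c

theorem ex_A (x : ι → G) (hx : Subgroup.closure (Set.range x) = ⊤) :
    (ShortComplex.mk (lhom (fox x)) (ea G) (df_ea x)).Exact := by
  apply rep_exact
  intro y hy
  obtain ⟨c, hc⟩ := (fox_exact x hx y).1 hy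
  exact ⟨c, hc⟩

end

theorem rep_exact' {k G : Type} [CommRing k] [Group G] (S : ShortComplex (Rep.{0} k G))
    (h : S.Exact) (x : S.X₂) (hx : S.g.hom x = 0) : ∃ y : S.X₁, S.f.hom y = x := by
  have h3 := h.map (forget₂ _ (ModuleCat k))
  rw [ShortComplex.moduleCat_exact_iff] at h3
  exact h3 x hx

/-- comparison of the relation module with a projective resolution -/
theorem comparison {G ι : Type} [Group G] [Fintype ι] (x : ι → G)
    (hx : Subgroup.closure (Set.range x) = ⊤)
    (R : ProjectiveResolution (Rep.trivial ℤ G ℤ)) :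
    ∃ (f : R.complex.X 2 ⟶ FMk ℤ (G := G) (ι → ZG G))
      (θ : FMk ℤ (G := G) (ι → ZG G) ⟶ FMk ℤ (G := G) (ι → ZG G)),
      f ≫ lhom (fox x) = 0 ∧ θ ≫ lhom (fox x) = 0 ∧
      ∀ v : ι → ZG G, fox x v = 0 → ∃ u, v = f.hom u - θ.hom v := by
  have SA := ex_A x hx
  let p : R.complex.X 0 ⟶ Rep.trivial ℤ G ℤ := R.π.f 0
  have hp : Epi p := inferInstanceAs (Epi (R.π.f 0))
  have hdp : R.complex.d 1 0 ≫ p = 0 := R.complex_d_comp_π_f_zero
  have S0 : (ShortComplex.mk (R.complex.d 1 0) p hdp).Exact := R.exact₀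
  let f0 : R.complex.X 0 ⟶ FMk ℤ (G := G) (ZG G) := Projective.factorThru p (ea G)
  have hf0 : f0 ≫ ea G = p := Projective.factorThru_comp _ _
  let f1 : R.complex.X 1 ⟶ FMk ℤ (G := G) (ι → ZG G) :=
    SA.liftFromProjective (R.complex.d 1 0 ≫ f0) (by
      change (R.complex.d 1 0 ≫ f0) ≫ ea G = 0
      rw [Category.assoc, hf0, hdp])
  have hf1 : f1 ≫ lhom (fox x) = R.complex.d 1 0 ≫ f0 := SA.liftFromProjective_comp _ _
  let g0 : FMk ℤ (G := G) (ZG G) ⟶ R.complex.X 0 := Projective.factorThru (ea G) p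
  have hg0 : g0 ≫ p = ea G := Projective.factorThru_comp _ _
  let g1 : FMk ℤ (G := G) (ι → ZG G) ⟶ R.complex.X 1 :=
    S0.liftFromProjective (lhom (fox x) ≫ g0) (by
      change (lhom (fox x) ≫ g0) ≫ p = 0
      rw [Category.assoc, hg0, df_ea])
  have hg1 : g1 ≫ R.complex.d 1 0 = lhom (fox x) ≫ g0 := S0.liftFromProjective_comp _ _
  let h0 : FMk ℤ (G := G) (ZG G) ⟶ FMk ℤ (G := G) (ι → ZG G) :=
    SA.liftFromProjective (g0 ≫ f0 - 𝟙 _) (by
      change (g0 ≫ f0 - 𝟙 _) ≫ ea G = 0
      rw [Preadditive.sub_comp, Category.assoc, hf0, hg0, Category.id_comp, sub_self])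
  have hh0 : h0 ≫ lhom (fox x) = g0 ≫ f0 - 𝟙 _ := SA.liftFromProjective_comp _ _
  refine ⟨R.complex.d 2 1 ≫ f1, g1 ≫ f1 - 𝟙 _ - lhom (fox x) ≫ h0, ?_, ?_, ?_⟩
  · rw [Category.assoc, hf1, ← Category.assoc, R.complex.d_comp_d, Limits.zero_comp]
  · rw [Preadditive.sub_comp, Preadditive.sub_comp, Category.assoc, Category.assoc, hf1, hh0,
      Preadditive.comp_sub, ← Category.assoc, hg1, Category.id_comp, Category.comp_id,
      Category.assoc]
    abel
  · intro v hv
    have h1 : (R.complex.d 1 0).hom (g1.hom v) = 0 := by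
      have := congrArg (fun φ => φ.hom v) hg1
      change (R.complex.d 1 0).hom (g1.hom v) = g0.hom (fox x v) at this
      rw [this, hv]
      exact map_zero _
    have h2 := R.exact_succ 0
    obtain ⟨u, hu⟩ : ∃ u, (R.complex.d 2 1).hom u = g1.hom v := by
      exact rep_exact' _ h2 (g1.hom v) h1
    refine ⟨u, ?_⟩
    change v = f1.hom ((R.complex.d 2 1).hom u) - (f1.hom (g1.hom v) - v - h0.hom (fox x v))
    rw [hu, hv]
    have : h0.hom 0 = 0 := map_zero _
    rw [this]
    abel

/-- **M1** -/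
theorem m1 : PropM1 := by
  intro G ι _ _ x hx hF
  obtain ⟨R, hR⟩ := hF
  obtain ⟨s, hs⟩ := hR 2 le_rfl
  obtain ⟨f, θ, hf, hθ, hv⟩ := comparison x hx R
  classical
  let W : Submodule (ZG G) (ι → ZG G) := Submodule.span (ZG G)
    (((s.image fun u => (f.hom u : ι → ZG G)) ∪
      (Finset.univ.image fun i : ι => (θ.hom (Pi.single i 1) : ι → ZG G)) :
        Finset (ι → ZG G)) : Set (ι → ZG G))
  have hW : W.FG := ⟨_, rfl⟩
  have hfW : ∀ u, (f.hom u : ι → ZG G) ∈ W := by
    intro u
    have hu := hs u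
    induction hu using Submodule.span_induction with
    | mem y hy =>
      obtain ⟨p, rfl⟩ := hy
      have h1 : f.hom ((R.complex.X 2).ρ p.1 (p.2 : (R.complex.X 2).V)) =
          MonoidAlgebra.of ℤ G p.1 • (f.hom (p.2 : (R.complex.X 2).V) : ι → ZG G) :=
        Rep.hom_comm_apply f p.1 _
      change f.hom ((R.complex.X 2).ρ p.1 (p.2 : (R.complex.X 2).V)) ∈ W
      rw [h1]
      refine Submodule.smul_mem _ _ (Submodule.subset_span ?_)
      simp only [Finset.coe_union, Finset.coe_image, Set.mem_union, Set.mem_image]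
      exact Or.inl ⟨p.2, p.2.2, rfl⟩
    | zero =>
      have : (f.hom 0 : ι → ZG G) = 0 := map_zero _
      rw [this]; exact zero_mem _
    | add y z _ _ h1 h2 =>
      have : (f.hom (y + z) : ι → ZG G) = f.hom y + f.hom z := map_add _ _ _
      rw [this]; exact add_mem h1 h2
    | smul n y _ h1 =>
      have : (f.hom (n • y) : ι → ZG G) = n • f.hom y := map_zsmul _ _ _
      rw [this]; exact zsmul_mem h1 n
  have hθW : ∀ v : ι → ZG G, (θ.hom v : ι → ZG G) ∈ W := by
    intro v
    let θ' : (ι → ZG G) →ₗ[ZG G] (ι → ZG G) :=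
      mkLin (k := ℤ) (θ.hom.toLinearMap : (ι → ZG G) →ₗ[ℤ] (ι → ZG G)) (by
        intro g y
        exact Rep.hom_comm_apply θ g y)
    change θ' v ∈ W
    have h1 : v = ∑ i, v i • (Pi.single i 1 : ι → ZG G) := by
      funext j
      rw [Finset.sum_apply, Finset.sum_eq_single j]
      · simp
      · intro i _ hi
        rw [Pi.smul_apply, Pi.single_eq_of_ne hi.symm, smul_zero]
      · simp
    rw [h1, map_sum]
    refine sum_mem fun i _ => ?_
    rw [map_smul]
    refine Submodule.smul_mem _ _ (Submodule.subset_span ?_)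
    simp only [Finset.coe_union, Finset.coe_image, Set.mem_union, Set.mem_image]
    exact Or.inr ⟨i, Finset.mem_coe.2 (Finset.mem_univ i), rfl⟩
  have hV : RM x = W := by
    apply le_antisymm
    · intro v hv'
      obtain ⟨u, hu⟩ := hv v hv'
      rw [hu]
      exact sub_mem (hfW u) (hθW v)
    · refine Submodule.span_le.2 ?_
      intro w hw
      simp only [Finset.coe_union, Finset.coe_image, Set.mem_union, Set.mem_image] at hw
      rcases hw with ⟨u, _, rfl⟩ | ⟨i, _, rfl⟩
      · exact congrArg (fun φ => φ.hom u) hf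
      · exact congrArg (fun φ => φ.hom (Pi.single i 1)) hθ
  rw [hV]
  exact hW

end Pool.Agent.Y448.HC
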