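import Pool.Agent.Y448.HC.Aug

/-!
# Finitely generated relation module implies type `FP_2` (M2), and `FP_m` from a resolution
-/

set_option autoImplicit false

namespace Pool.Agent.Y448.HC

open Pool.Agent.W326.DU Pool.Agent.Y66.HC Pool.Agent.Helper158 CategoryTheory

/-- a finitely generated module is spanned over `ℤ` by the translates of a finite set -/
theorem span_translates {G M : Type} [Group G] [AddCommGroup M] [Module (ZG G) M]
    (s : Finset M) (hs : Submodule.span (ZG G) (s : Set M) = ⊤) (x : M) :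
    x ∈ Submodule.span ℤ
      (Set.range (fun p : G × s => MonoidAlgebra.of ℤ G p.1 • (p.2 : M))) := by
  have hx : x ∈ Submodule.span (ZG G) (s : Set M) := by rw [hs]; trivial
  have hg : ∀ (g : G) (y : M), y ∈ Submodule.span ℤ
      (Set.range (fun p : G × s => MonoidAlgebra.of ℤ G p.1 • (p.2 : M))) →
      MonoidAlgebra.of ℤ G g • y ∈ Submodule.span ℤ
      (Set.range (fun p : G × s => MonoidAlgebra.of ℤ G p.1 • (p.2 : M))) := by
    intro g y hy
    induction hy using Submodule.span_induction with
    | mem y hy =>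
      obtain ⟨p, rfl⟩ := hy
      refine Submodule.subset_span ⟨(g * p.1, p.2), ?_⟩
      simp only
      rw [map_mul, mul_smul]
    | zero => rw [smul_zero]; exact zero_mem _
    | add y z _ _ h1 h2 => rw [smul_add]; exact add_mem h1 h2
    | smul n y _ h1 =>
      rw [smul_comm]
      exact Submodule.smul_mem _ _ h1
  induction hx using Submodule.span_induction with
  | mem y hy =>
    refine Submodule.subset_span ⟨(1, ⟨y, hy⟩), ?_⟩
    simp only
    rw [map_one, one_smul]
  | zero => exact zero_mem _
  | add y z _ _ h1 h2 => exact add_mem h1 h2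
  | smul a y _ h1 =>
    induction a using MonoidAlgebra.induction_on with
    | of g => exact hg g y h1
    | add a b ha hb => rw [add_smul]; exact add_mem ha hb
    | smul r a ha => rw [smul_assoc]; exact Submodule.smul_mem _ _ ha

/-- type `FP_m` from a resolution by projective modules which are finitely generated up to
degree `m` -/
theorem fpc_of_reso {G : Type} [Group G] {P : ℕ → Type} [∀ i, AddCommGroup (P i)]
    [∀ i, Module (MonoidAlgebra ℤ G) (P i)] [∀ i, Module.Projective (MonoidAlgebra ℤ G) (P i)]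
    {d : ∀ i, P (i + 1) →ₗ[MonoidAlgebra ℤ G] P i} {ε : P 0 →+ ℤ}
    (h : Reso P d ε) (m : ℕ) (hf : ∀ i ≤ m, Module.Finite (MonoidAlgebra ℤ G) (P i)) :
    FPc m G := by
  refine ⟨h.pr, fun k hk => ?_⟩
  obtain ⟨s, hs⟩ := (hf k hk).fg_top
  exact ⟨s, fun x => span_translates s hs x⟩

/-! ### Extension of a presentation to a resolution -/

section ext

variable {G : Type} [Group G]

/-- iterated kernels of the canonical free covers -/
noncomputable def KK (V : ModuleCat.{0} (ZG G)) : ℕ → ModuleCat.{0} (ZG G)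
  | 0 => V
  | n + 1 => ModuleCat.of (ZG G)
      (LinearMap.ker (Finsupp.linearCombination (ZG G) (id : KK V n → KK V n)))

/-- the modules of the resolution -/
noncomputable def PR (A B C V : ModuleCat.{0} (ZG G)) : ℕ → ModuleCat.{0} (ZG G)
  | 0 => A
  | 1 => B
  | 2 => C
  | n + 3 => ModuleCat.of (ZG G) (KK V n →₀ ZG G)

/-- the differentials of the resolution -/
noncomputable def dR {A B C : ModuleCat.{0} (ZG G)} (d0 : B →ₗ[ZG G] A) (d1 : C →ₗ[ZG G] B) :
    ∀ i : ℕ, PR A B C (ModuleCat.of (ZG G) (LinearMap.ker d1)) (i + 1) →ₗ[ZG G]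
      PR A B C (ModuleCat.of (ZG G) (LinearMap.ker d1)) i
  | 0 => d0
  | 1 => d1
  | 2 => (LinearMap.ker d1).subtype ∘ₗ Finsupp.linearCombination (ZG G)
      (id : LinearMap.ker d1 → LinearMap.ker d1)
  | n + 3 => (LinearMap.ker (Finsupp.linearCombination (ZG G)
      (id : KK (ModuleCat.of (ZG G) (LinearMap.ker d1)) n →
        KK (ModuleCat.of (ZG G) (LinearMap.ker d1)) n))).subtype ∘ₗ
      Finsupp.linearCombination (ZG G)
        (id : KK (ModuleCat.of (ZG G) (LinearMap.ker d1)) (n + 1) →
          KK (ModuleCat.of (ZG G) (LinearMap.ker d1)) (n + 1))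

theorem reso_ext {A B C : ModuleCat.{0} (ZG G)} (d0 : B →ₗ[ZG G] A) (d1 : C →ₗ[ZG G] B)
    (ε : A →+ ℤ) (h1 : Function.Surjective ε)
    (h2 : ∀ (g : G) (x : A), ε (MonoidAlgebra.of ℤ G g • x) = ε x)
    (h3 : ∀ x : A, ε x = 0 ↔ x ∈ LinearMap.range d0)
    (h4 : ∀ x : B, d0 x = 0 ↔ x ∈ LinearMap.range d1) :
    Reso (fun i => PR A B C (ModuleCat.of (ZG G) (LinearMap.ker d1)) i) (dR d0 d1) ε where
  surj := h1
  equi := h2
  ex0 := h3
  ex := by
    have key : ∀ {M N : Type} [AddCommGroup M] [Module (ZG G) M] [AddCommGroup N]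
        [Module (ZG G) N] (f : M →ₗ[ZG G] N) (x : M), f x = 0 ↔
        x ∈ LinearMap.range ((LinearMap.ker f).subtype ∘ₗ Finsupp.linearCombination (ZG G)
          (id : LinearMap.ker f → LinearMap.ker f)) := by
      intro M N _ _ _ _ f x
      constructor
      · intro hx
        obtain ⟨c, hc⟩ := Finsupp.linearCombination_id_surjective (ZG G) (LinearMap.ker f)
          ⟨x, hx⟩
        refine ⟨c, ?_⟩
        rw [LinearMap.comp_apply, hc]
        rfl
      · rintro ⟨c, rfl⟩
        exact (Finsupp.linearCombination (ZG G) (id : LinearMap.ker f → LinearMap.ker f) c).2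
    intro i
    match i with
    | 0 => exact h4
    | 1 => exact key d1
    | 2 =>
      intro x
      refine Iff.trans ?_ (key (Finsupp.linearCombination (ZG G)
        (id : LinearMap.ker d1 → LinearMap.ker d1)) x)
      exact Submodule.coe_eq_zero
    | n + 3 =>
      intro x
      refine Iff.trans ?_ (key (Finsupp.linearCombination (ZG G)
        (id : KK (ModuleCat.of (ZG G) (LinearMap.ker d1)) (n + 1) →
          KK (ModuleCat.of (ZG G) (LinearMap.ker d1)) (n + 1))) x)
      exact Submodule.coe_eq_zero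

instance {A B C V : ModuleCat.{0} (ZG G)} [Module.Projective (ZG G) A]
    [Module.Projective (ZG G) B] [Module.Projective (ZG G) C] (i : ℕ) :
    Module.Projective (ZG G) (PR A B C V i) := by
  match i with
  | 0 => assumption
  | 1 => assumption
  | 2 => assumption
  | n + 3 => exact inferInstanceAs (Module.Projective (ZG G) (KK V n →₀ ZG G))

end ext

/-- **M2** -/
theorem m2 : PropM2 := by
  intro G ι _ _ x hx hfg
  have : Module.Finite (ZG G) (RM x) := Module.Finite.iff_fg.2 hfg
  obtain ⟨n, f, hf⟩ := Module.Finite.exists_fin' (ZG G) (RM x)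
  let A : ModuleCat.{0} (ZG G) := ModuleCat.of (ZG G) (ZG G)
  let B : ModuleCat.{0} (ZG G) := ModuleCat.of (ZG G) (ι → ZG G)
  let C : ModuleCat.{0} (ZG G) := ModuleCat.of (ZG G) (Fin n → ZG G)
  let d0 : B →ₗ[ZG G] A := fox x
  let d1 : C →ₗ[ZG G] B := (RM x).subtype ∘ₗ f
  have : Module.Projective (ZG G) A := inferInstanceAs (Module.Projective (ZG G) (ZG G))
  have : Module.Projective (ZG G) B := inferInstanceAs (Module.Projective (ZG G) (ι → ZG G))
  have : Module.Projective (ZG G) C :=
    inferInstanceAs (Module.Projective (ZG G) (Fin n → ZG G))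
  have h2 : ∀ (g : G) (x : A), augm G (MonoidAlgebra.of ℤ G g • x) = augm G x := by
    intro g y
    change augm G (MonoidAlgebra.of ℤ G g * y) = _
    rw [augm_mul, augm_of, one_mul]
  have h4 : ∀ y : B, d0 y = 0 ↔ y ∈ LinearMap.range d1 := by
    intro y
    constructor
    · intro hy
      obtain ⟨c, hc⟩ := hf ⟨y, hy⟩
      refine ⟨c, ?_⟩
      change (RM x).subtype (f c) = y
      rw [hc]
      rfl
    · rintro ⟨c, rfl⟩
      exact (f c).2
  have hR := reso_ext d0 d1 (augm G) augm_surj h2 (fun y => fox_exact x hx y) h4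
  refine fpc_of_reso hR 2 ?_
  intro i hi
  match i, hi with
  | 0, _ => exact inferInstanceAs (Module.Finite (ZG G) (ZG G))
  | 1, _ => exact inferInstanceAs (Module.Finite (ZG G) (ι → ZG G))
  | 2, _ => exact inferInstanceAs (Module.Finite (ZG G) (Fin n → ZG G))

end Pool.Agent.Y448.HC
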