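import Pool.Agent.Y66.HC.Defs
import Pool.Agent.W326.DU.Aug
import Pool.Agent.Helper158.Bridge

/-!
# The augmentation ideal and the map `fox`
-/

set_option autoImplicit false

namespace Pool.Agent.Y448.HC

open Pool.Agent.W326.DU Pool.Agent.Y66.HC CategoryTheory

variable {G ι : Type} [Group G] [Fintype ι]

theorem augm_of (g : G) : augm G (MonoidAlgebra.of ℤ G g) = 1 := by simp [augm]

theorem augm_mul (a b : ZG G) : augm G (a * b) = augm G a * augm G b :=
  map_mul (MonoidAlgebra.lift ℤ ℤ G (1 : G →* ℤ)) a b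

theorem augm_one : augm G (1 : ZG G) = 1 :=
  map_one (MonoidAlgebra.lift ℤ ℤ G (1 : G →* ℤ))

theorem augm_surj : Function.Surjective (augm G) := by
  intro n
  refine ⟨n • (1 : ZG G), ?_⟩
  rw [map_zsmul, augm_one, smul_eq_mul, mul_one]

theorem augm_fox (x : ι → G) (c : ι → ZG G) : augm G (fox x c) = 0 := by
  change augm G (∑ i, c i * (MonoidAlgebra.of ℤ G (x i) - 1)) = 0
  rw [map_sum]
  refine Finset.sum_eq_zero fun i _ => ?_
  rw [augm_mul, map_sub, augm_of, augm_one, sub_self, mul_zero]

theorem fox_exact (x : ι → G) (hx : Subgroup.closure (Set.range x) = ⊤) (y : ZG G) :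
    augm G y = 0 ↔ y ∈ LinearMap.range (fox x) := by
  constructor
  · intro h
    have h1 := aug_th G (Set.range x) hx y h
    have h2 : IL ℤ (Set.range x) ≤ LinearMap.range (fox x) := by
      refine Submodule.span_le.2 ?_
      rintro _ ⟨_, ⟨i, rfl⟩, rfl⟩
      classical
      refine ⟨Pi.single i 1, ?_⟩
      change ∑ j, (Pi.single i (1 : ZG G) : ι → ZG G) j * (MonoidAlgebra.of ℤ G (x j) - 1) = _
      rw [Finset.sum_eq_single i]
      · simp
      · intro j _ hj
        rw [Pi.single_eq_of_ne hj, zero_mul]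
      · simp
    exact h2 h1
  · rintro ⟨c, rfl⟩
    exact augm_fox x c

end Pool.Agent.Y448.HC
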